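import Pool.Agent.NH4.QL.Avg
import Pool.Agent.NH4.QL.Ene
import Pool.Agent.NH4.QL.Set
import Pool.Agent.NH4.QL.Core
import Pool.Agent.NH4.QL.Fin2
import Pool.Agent.H295R3.Hoheisel

/-!
# MP_778b46_nt: even numbers in short intervals as sums of a very small iterated prime and a prime

For every `a` the `(a, 0)`-representable even numbers are almost a positive proportion of the even
numbers of every interval of length `X ^ (1 - δ)`: only the factor `log log log log X` is lost, and the
`a`-prime can be taken at most `(log X) ^ 3`. For the interval `[1, x]` this order is a starting result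
(`MP_5d7b92_nt.NearPositiveProportion`, and `SharpOrderForIndexSets` there: the factor cannot be improved
for arbitrary index sets); here it is proved for all short intervals.

Proof. Take a set `U` of about `log X` of the `a`-primes up to `J = log X (log log X) ^ (a + 2)`, and the
primes `q` of the interval; their number is at least `c H / log X` (Selberg's method, a starting
result). The number of the solutions of `q + u = q' + u'` is at most the number of the pairs `(u, q)`
plus `C H / (log X) ^ 2` times the sum of the singular factors `∏ (1 + 1 / p)`, `p ∣ u - u'`, over the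
pairs of elements of `U` (sieve for pairs of primes in short intervals). By Hoelder's inequality with the
exponent `k = log log J` the average of the singular factor over the pairs of elements of any set with
`J / (log J) ^ A` elements up to `J` is at most a constant times `log k = log log log J`, as in the
starting result.

Authors: helper4, with parts by helper17 (`Avg`), helper58 (`Ene`), helper74 (`Set`), helper54
(`Fin`); the sieve for pairs, the moments of the singular factor and the primes in short intervals are
from the starting modules `Pool.Agent.H197R2.PG`, `Pool.Agent.TH665.GP` and `Pool.Agent.H295R3`.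
-/

set_option autoImplicit false

namespace Pool.Agent.Results.MP_778b46_nt.SmallIteratedPrime

/-- The `i`-th `a`-prime: the `(a + 1)`-fold iterate of `k ↦ k`-th prime, applied to `i`. -/
noncomputable def iteratedPrime (a i : ℕ) : ℕ :=
  Nat.iterate (fun k : ℕ => Nat.nth Nat.Prime (k - 1)) (a + 1) i

/-- `2 n` is `(a, 0)`-representable with an `a`-prime at most `B`: it is the sum of an `a`-prime, which
is at most `B`, and a different prime. -/
def RepresentableWithin (a n : ℕ) (B : ℝ) : Prop :=
  ∃ x y : ℕ, 0 < x ∧ 0 < y ∧ iteratedPrime a x ≠ iteratedPrime 0 y ∧
    iteratedPrime a x + iteratedPrime 0 y = 2 * n ∧ (iteratedPrime a x : ℝ) ≤ B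

/-- **Sums of a very small iterated prime and a prime in short intervals.** There is a `δ > 0` such that
for every `a` there is a `c > 0` with the following property. For all large `X` and all `H` with
`X ^ (1 - δ) ≤ H ≤ X`, for at least `c H / log log log log X` of the `n` with `X < n ≤ X + H` the even
number `2 n` is the sum of an `a`-prime, which is at most `(log X) ^ 3`, and a different prime. -/
theorem result : ∃ δ : ℝ, 0 < δ ∧ δ < 1 ∧ ∀ a : ℕ, ∃ c : ℝ, 0 < c ∧ ∃ X₀ : ℕ,
    ∀ X H : ℕ, X₀ ≤ X → (X : ℝ) ^ (1 - δ) ≤ H → H ≤ X →
      c * H / Real.log (Real.log (Real.log (Real.log X))) ≤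
        Set.ncard {n : ℕ | X < n ∧ n ≤ X + H ∧ RepresentableWithin a n (Real.log X ^ 3)} :=
  Pool.Agent.NH4.QL.t_FIN2 (Pool.Agent.NH4.QL.t_CORE2 Pool.Agent.NH4.QL.t_AVG
    Pool.Agent.NH4.QL.t_ENE Pool.Agent.NH4.QL.t_SET Pool.Agent.H295R3.D.hoheisel)

end Pool.Agent.Results.MP_778b46_nt.SmallIteratedPrime
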